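import Pool.Agent.W816.FC1

/-!
Feynman checkers: the path sums in terms of the coefficient array `F`.
-/

namespace Pool.Agent.W816.FC

open Finset

/-- number of turns -/
def turns (n : ℕ) (s : Fin (n + 1) → Bool) : ℕ :=
  (Finset.univ.filter (fun i : Fin n => s i.castSucc ≠ s i.succ)).card

/-- end point -/
def endp (n : ℕ) (s : Fin (n + 1) → Bool) : ℤ := ∑ i, (if s i then (1:ℤ) else -1)

/-- the sum over the paths whose last step is `β` -/
noncomputable def W (n : ℕ) (y : ℤ) (β : Bool) : ℂ :=
  ∑ s : Fin (n + 1) → Bool, if s 0 = true ∧ s (Fin.last n) = β ∧ endp n s = y then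
    (-Complex.I) ^ turns n s else 0

theorem turns_snoc (n : ℕ) (s : Fin (n + 1) → Bool) (c : Bool) :
    turns (n + 1) (Fin.snoc (α := fun _ => Bool) s c) =
      turns n s + if s (Fin.last n) ≠ c then 1 else 0 := by
  unfold turns
  rw [Finset.card_filter, Finset.card_filter, Fin.sum_univ_castSucc]
  congr 1
  · apply Finset.sum_congr rfl
    intro i _
    rw [Fin.succ_castSucc]
    simp only [Fin.snoc_castSucc]
  · rw [Fin.succ_last]
    simp only [Fin.snoc_castSucc, Fin.snoc_last]

theorem endp_snoc (n : ℕ) (s : Fin (n + 1) → Bool) (c : Bool) :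
    endp (n + 1) (Fin.snoc (α := fun _ => Bool) s c) = endp n s + if c then 1 else -1 := by
  unfold endp
  rw [Fin.sum_univ_castSucc]
  simp only [Fin.snoc_castSucc, Fin.snoc_last]

theorem snoc_zero' (n : ℕ) (s : Fin (n + 1) → Bool) (c : Bool) :
    (Fin.snoc (α := fun _ => Bool) s c : Fin (n + 2) → Bool) 0 = s 0 := by
  have : (0 : Fin (n + 2)) = Fin.castSucc 0 := rfl
  rw [this, Fin.snoc_castSucc]

theorem W_succ (n : ℕ) (y : ℤ) (β : Bool) :
    W (n + 1) y β = W n (y - if β then 1 else -1) β +
      (-Complex.I) * W n (y - if β then 1 else -1) (!β) := by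
  have h1 : W (n + 1) y β = ∑ p : Bool × (Fin (n + 1) → Bool),
      if (Fin.snocEquiv (fun _ => Bool) p) 0 = true ∧
        (Fin.snocEquiv (fun _ => Bool) p) (Fin.last (n + 1)) = β ∧
        endp (n + 1) (Fin.snocEquiv (fun _ => Bool) p) = y then
      (-Complex.I) ^ turns (n + 1) (Fin.snocEquiv (fun _ => Bool) p) else 0 := by
    unfold W
    exact ((Fin.snocEquiv (fun _ : Fin (n + 2) => Bool)).sum_comp (fun s =>
      if s 0 = true ∧ s (Fin.last (n + 1)) = β ∧ endp (n + 1) s = y then
      (-Complex.I) ^ turns (n + 1) s else 0)).symm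
  rw [h1, Fintype.sum_prod_type]
  have h2 : ∀ (c : Bool) (s : Fin (n + 1) → Bool),
      (Fin.snocEquiv (fun _ : Fin (n + 2) => Bool) (c, s)) =
        (Fin.snoc (α := fun _ => Bool) s c : Fin (n + 2) → Bool) := fun c s => rfl
  simp only [h2, snoc_zero', Fin.snoc_last, endp_snoc, turns_snoc]
  unfold W
  rw [Finset.mul_sum, ← Finset.sum_add_distrib, Finset.sum_comm]
  apply Finset.sum_congr rfl
  intro s _
  rw [Fintype.sum_bool]
  have e1 : ∀ z : ℤ, (endp n s + 1 = y ↔ endp n s = y - 1) := fun _ => by omega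
  have e2 : ∀ z : ℤ, (endp n s + -1 = y ↔ endp n s = y - -1) := fun _ => by omega
  cases β <;> cases h0 : s 0 <;> cases hl : s (Fin.last n) <;>
    simp [eq_sub_iff_add_eq, pow_succ, mul_comm]
  all_goals try (split_ifs <;> simp_all)

/-- recursion for the amplitudes: `(RL n q).1` for the paths ending with a right step, `(RL n q).2`
for those ending with a left step, `q` the number of left steps -/
def RL : ℕ → ℕ → ℤ × ℤ
  | 0, 0 => (1, 0)
  | 0, _ + 1 => (0, 0)
  | n + 1, 0 => ((RL n 0).1 - (RL n 0).2, 0)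
  | n + 1, q + 1 => ((RL n (q + 1)).1 - (RL n (q + 1)).2, (RL n q).1 + (RL n q).2)

theorem endp_le (n : ℕ) (s : Fin (n + 1) → Bool) : endp n s ≤ n + 1 := by
  unfold endp
  refine (Finset.sum_le_card_nsmul _ _ 1 (fun i _ => by split_ifs <;> norm_num)).trans ?_
  simp

theorem W_big (n : ℕ) (y : ℤ) (β : Bool) (hy : (n : ℤ) + 1 < y) : W n y β = 0 := by
  unfold W
  apply Finset.sum_eq_zero
  intro s _
  rw [if_neg]
  rintro ⟨_, _, h⟩
  have := endp_le n s
  omega

theorem W_zero (y : ℤ) (β : Bool) : W 0 y β = if β = true ∧ y = 1 then 1 else 0 := by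
  unfold W endp turns
  rw [Finset.sum_eq_single (fun _ => true)]
  · cases β <;> simp [eq_comm]
  · intro s _ hs
    rw [if_neg]
    rintro ⟨h, _, _⟩
    apply hs
    funext i
    rw [← h]
    congr 1
    exact Fin.ext (by omega)
  · intro h
    exact absurd (Finset.mem_univ _) h

theorem W_eq (n q : ℕ) : W n (n + 1 - 2 * q) true = ((RL n q).1 : ℂ) ∧
    W n (n + 1 - 2 * q) false = -Complex.I * ((RL n q).2 : ℂ) := by
  induction n generalizing q with
  | zero =>
    rw [W_zero, W_zero]
    cases q with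
    | zero => simp [RL]
    | succ q =>
      rw [if_neg, if_neg]
      · simp [RL]
      · simp
      · rintro ⟨_, h⟩
        push_cast at h
        omega
  | succ n ih =>
    rw [W_succ, W_succ]
    simp only [if_true, Bool.not_true, Bool.not_false, Bool.false_eq_true, if_false]
    have e1 : ((n + 1 : ℕ) : ℤ) + 1 - 2 * q - 1 = n + 1 - 2 * q := by push_cast; ring
    rw [e1, (ih q).1, (ih q).2]
    constructor
    · have : (RL (n + 1) q).1 = (RL n q).1 - (RL n q).2 := by cases q <;> simp [RL]
      rw [this]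
      push_cast
      linear_combination ((RL n q).2 : ℂ) * Complex.I_sq
    · cases q with
      | zero =>
        rw [W_big _ _ _ (by push_cast; omega), W_big _ _ _ (by push_cast; omega)]
        simp [RL]
      | succ q =>
        have e2 : ((n + 1 : ℕ) : ℤ) + 1 - 2 * ((q + 1 : ℕ) : ℤ) - -1 = n + 1 - 2 * q := by
          push_cast; ring
        rw [e2, (ih q).1, (ih q).2]
        have : (RL (n + 1) (q + 1)).2 = (RL n q).1 + (RL n q).2 := by simp [RL]
        rw [this]
        push_cast
        ring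

theorem RL_zero (n : ℕ) : RL n 0 = (1, 0) := by
  induction n with
  | zero => rfl
  | succ n ih => simp [RL, ih]

theorem RL_big (n q : ℕ) (h : n < q) : RL n q = (0, 0) := by
  induction n generalizing q with
  | zero =>
    cases q with
    | zero => omega
    | succ q => rfl
  | succ n ih =>
    cases q with
    | zero => omega
    | succ q => simp [RL, ih q (by omega), ih (q + 1) (by omega)]

theorem RL_eq (n : ℕ) : ∀ a b : ℕ, n = a + b + 1 →
    RL n (b + 1) = (F a (b + 1) - F a b, F a b) := by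
  induction n with
  | zero => intro a b h; omega
  | succ n ih =>
    intro a b h
    have hn : n = a + b := by omega
    have h1 : (RL (n + 1) (b + 1)).1 = (RL n (b + 1)).1 - (RL n (b + 1)).2 := by simp [RL]
    have h2 : (RL (n + 1) (b + 1)).2 = (RL n b).1 + (RL n b).2 := by simp [RL]
    apply Prod.ext
    · rw [h1]
      cases a with
      | zero =>
        rw [RL_big n (b + 1) (by omega)]
        simp [F_zero_left]
      | succ a =>
        rw [ih a b (by omega), J]
        simp only
        ring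
    · rw [h2]
      cases b with
      | zero => rw [RL_zero, F_zero_right]; simp
      | succ b =>
        rw [ih a b (by omega)]
        simp only
        ring

/-- the frozen path sum -/
noncomputable def Amp (n : ℕ) (y : ℤ) : ℂ :=
  ∑ s ∈ Finset.univ.filter
    (fun s : Fin (n+1) → Bool => s 0 = true ∧ ∑ i, (if s i then (1:ℤ) else -1) = y),
    (-Complex.I) ^ ((Finset.univ.filter
      (fun i : Fin n => s i.castSucc ≠ s i.succ)).card)

theorem Amp_eq (n : ℕ) (y : ℤ) : Amp n y = W n y true + W n y false := by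
  unfold Amp W turns endp
  rw [Finset.sum_filter, ← Finset.sum_add_distrib]
  apply Finset.sum_congr rfl
  intro s _
  cases h0 : s 0 <;> cases hl : s (Fin.last n) <;> simp

theorem endp_form (n : ℕ) (s : Fin (n + 1) → Bool) :
    ∃ q : ℕ, q ≤ n + 1 ∧ endp n s = n + 1 - 2 * q := by
  refine ⟨(Finset.univ.filter (fun i => s i = false)).card, ?_, ?_⟩
  · refine (Finset.card_filter_le _ _).trans ?_
    simp
  · unfold endp
    rw [Finset.card_filter]
    have : ((n : ℤ) + 1) = ∑ i : Fin (n + 1), (1 : ℤ) := by simp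
    rw [this]
    push_cast
    rw [Finset.mul_sum, ← Finset.sum_sub_distrib]
    apply Finset.sum_congr rfl
    intro i _
    cases s i <;> simp

theorem Amp_ne (n : ℕ) (y : ℤ) (h : Amp n y ≠ 0) : ∃ q : ℕ, q ≤ n + 1 ∧ y = n + 1 - 2 * q := by
  unfold Amp at h
  obtain ⟨s, hs, _⟩ := Finset.exists_ne_zero_of_sum_ne_zero h
  rw [Finset.mem_filter] at hs
  obtain ⟨q, hq, h1⟩ := endp_form n s
  refine ⟨q, hq, ?_⟩
  rw [← h1]
  exact hs.2.2.symm

theorem norm_Amp (n q : ℕ) : ‖Amp n (n + 1 - 2 * q)‖ ^ 2 =
    ((RL n q).1 : ℝ) ^ 2 + ((RL n q).2 : ℝ) ^ 2 := by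
  rw [Amp_eq, (W_eq n q).1, (W_eq n q).2, ← Complex.normSq_eq_norm_sq, Complex.normSq_apply]
  simp
  ring

end Pool.Agent.W816.FC
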