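import Pool.Agent.W816.FC2
import Pool.Agent.W816.FC3

/-!
Feynman checkers: the most probable position is not at bounded distance from `t / √2`.
-/

namespace Pool.Agent.W816.FC

/-- the unnormalised probability at `q = b + 1` left steps, time `t = N + 2` -/
noncomputable def Sq (N b : ℕ) : ℝ :=
  (F (N - b) b : ℝ) ^ 2 + ((F (N - b) (b + 1) : ℝ) - F (N - b) b) ^ 2

theorem norm_eq (N b : ℕ) (h : b ≤ N) :
    ‖Amp (N + 1) (((N + 1 : ℕ) : ℤ) + 1 - 2 * ((b + 1 : ℕ) : ℤ))‖ ^ 2 = Sq N b := by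
  rw [norm_Amp, RL_eq (N + 1) (N - b) b (by omega)]
  unfold Sq
  push_cast
  ring

theorem Sq_eq (N b : ℕ) (h : 2 * b + 2 ≤ N) :
    Sq N b = f N b ^ 2 + (((N : ℝ) - b) * (f N (b + 1) + f N b) / ((N : ℝ) - 2 * b - 1)) ^ 2 := by
  obtain ⟨a, rfl⟩ : ∃ a, N = a + b + 1 := ⟨N - b - 1, by omega⟩
  have hab : b + 1 ≤ a := by omega
  have hab' : (b : ℝ) + 1 ≤ a := by exact_mod_cast hab
  unfold Sq f
  have e0 : a + b + 1 - b = a + 1 := by omega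
  have e1 : a + b + 1 - (b + 1) = a := by omega
  rw [e0, e1]
  have h1 := M a b
  have h1' : ((a : ℝ) + 1) * F a (b + 1) - ((b : ℝ) + 1) * F (a + 1) b =
      ((a : ℝ) - b) * F (a + 1) (b + 1) := by exact_mod_cast h1
  have hne : (a : ℝ) - b ≠ 0 := by linarith
  have h2 : ((a + b + 1 : ℕ) : ℝ) - 2 * b - 1 = a - b := by push_cast; ring
  have h3 : ((-1 : ℝ) ^ b) ^ 2 = 1 := by rw [← pow_mul, mul_comm, pow_mul]; norm_num
  have h4 : (((a + b + 1 : ℕ) : ℝ) - b) * ((-1) ^ (b + 1) * (F a (b + 1) : ℝ) +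
      (-1) ^ b * (F (a + 1) b : ℝ)) / ((a : ℝ) - b) =
      -(-1) ^ b * ((F (a + 1) (b + 1) : ℝ) - F (a + 1) b) := by
    rw [div_eq_iff hne]
    push_cast
    rw [pow_succ]
    linear_combination (-(-1) ^ b) * h1'
  rw [h2, h4]
  rw [mul_pow, mul_pow, neg_sq, h3]
  ring

theorem Sq_lt (N b : ℕ) (h : 2 * b + 6 ≤ N) (h0 : 0 < f N b) (h1 : f N b < f N (b + 1))
    (h2 : f N (b + 1) < f N (b + 2)) : Sq N b < Sq N (b + 1) := by
  have h' : (2 : ℝ) * b + 6 ≤ N := by exact_mod_cast h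
  have hb0 : (0 : ℝ) ≤ b := Nat.cast_nonneg b
  rw [Sq_eq N b (by omega), Sq_eq N (b + 1) (by omega)]
  have hf1 : f N b ^ 2 < f N (b + 1) ^ 2 := by
    apply pow_lt_pow_left₀ h1 h0.le (by norm_num)
  have hd1 : 0 < (N : ℝ) - 2 * b - 1 := by linarith
  have hd2 : 0 < (N : ℝ) - 2 * ((b + 1 : ℕ) : ℝ) - 1 := by push_cast; linarith
  have key : ((N : ℝ) - b) * (f N (b + 1) + f N b) / ((N : ℝ) - 2 * b - 1) ≤
      ((N : ℝ) - ((b + 1 : ℕ) : ℝ)) * (f N (b + 1 + 1) + f N (b + 1)) /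
        ((N : ℝ) - 2 * ((b + 1 : ℕ) : ℝ) - 1) := by
    rw [div_le_div_iff₀ hd1 hd2]
    push_cast
    have hs : f N (b + 1) + f N b ≤ f N (b + 1 + 1) + f N (b + 1) := by
      have : f N (b + 1) < f N (b + 1 + 1) := h2
      linarith
    have hs0 : 0 ≤ f N (b + 1) + f N b := by linarith
    have hc : ((N : ℝ) - b) * ((N : ℝ) - 2 * (b + 1) - 1) ≤
        ((N : ℝ) - (b + 1)) * ((N : ℝ) - 2 * b - 1) := by nlinarith
    calc ((N : ℝ) - b) * (f N (b + 1) + f N b) * ((N : ℝ) - 2 * (b + 1) - 1)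
        = (((N : ℝ) - b) * ((N : ℝ) - 2 * (b + 1) - 1)) * (f N (b + 1) + f N b) := by ring
      _ ≤ (((N : ℝ) - (b + 1)) * ((N : ℝ) - 2 * b - 1)) * (f N (b + 1) + f N b) :=
          mul_le_mul_of_nonneg_right hc hs0
      _ ≤ (((N : ℝ) - (b + 1)) * ((N : ℝ) - 2 * b - 1)) * (f N (b + 1 + 1) + f N (b + 1)) := by
          apply mul_le_mul_of_nonneg_left hs
          apply mul_nonneg <;> linarith
      _ = ((N : ℝ) - (b + 1)) * (f N (b + 1 + 1) + f N (b + 1)) * ((N : ℝ) - 2 * b - 1) := by ring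
  have hpos : 0 ≤ ((N : ℝ) - b) * (f N (b + 1) + f N b) / ((N : ℝ) - 2 * b - 1) := by
    apply div_nonneg
    · apply mul_nonneg <;> linarith
    · linarith
  have := pow_le_pow_left₀ hpos key 2
  linarith

/-- a global maximiser exists and is of the form `n + 1 - 2 q` -/
theorem exists_max (n : ℕ) : ∃ q : ℕ, q ≤ n + 1 ∧
    ∀ y : ℤ, ‖Amp n y‖ ^ 2 ≤ ‖Amp n ((n : ℤ) + 1 - 2 * q)‖ ^ 2 := by
  obtain ⟨q, hq, h⟩ := Finset.exists_max_image (Finset.range (n + 2))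
    (fun q : ℕ => ‖Amp n ((n : ℤ) + 1 - 2 * q)‖ ^ 2) ⟨0, by simp⟩
  refine ⟨q, by simpa [Nat.lt_succ_iff] using hq, fun y => ?_⟩
  by_cases hy : Amp n y = 0
  · rw [hy, norm_zero]
    have := sq_nonneg ‖Amp n ((n : ℤ) + 1 - 2 * q)‖
    linarith
  · obtain ⟨q', hq', rfl⟩ := Amp_ne n y hy
    exact h q' (by simp; omega)

theorem main : ¬ (∃ C : ℝ, ∀ n : ℕ, ∀ x : ℤ,
      (∀ y : ℤ, (2:ℝ) ^ (-(n:ℤ)) * ‖Amp n y‖ ^ 2 ≤ (2:ℝ) ^ (-(n:ℤ)) * ‖Amp n x‖ ^ 2) →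
      |(x:ℝ) - ((n:ℝ) + 1) / Real.sqrt 2| ≤ C) := by
  rintro ⟨C, hC⟩
  have hC0 : 0 ≤ |C| := abs_nonneg C
  obtain ⟨N0, hN0⟩ := mono (|C| + 2) (by linarith)
  obtain ⟨N1, hN1⟩ := exists_nat_ge (100 * (|C| + 10))
  set N := max N0 N1 with hN
  have hNN0 : N0 ≤ N := le_max_left _ _
  have hNN1 : (100 * (|C| + 10) : ℝ) ≤ N := hN1.trans (by exact_mod_cast le_max_right N0 N1)
  obtain ⟨q, hq, hmax⟩ := exists_max (N + 1)
  have hx := hC (N + 1) (((N + 1 : ℕ) : ℤ) + 1 - 2 * q) (fun y =>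
    mul_le_mul_of_nonneg_left (hmax y) (by positivity))
  rw [abs_le] at hx
  obtain ⟨hx1, hx2⟩ := hx
  push_cast at hx1 hx2
  have hCa : C ≤ |C| := le_abs_self C
  obtain ⟨hs1, hs2⟩ := s_bounds ((N : ℝ) + 1) (by positivity)
  obtain ⟨hs3, hs4⟩ := s_bounds (N : ℝ) (by positivity)
  have hmono_s : ((N : ℝ) + 1) / Real.sqrt 2 ≤ ((N : ℝ) + 1 + 1) / Real.sqrt 2 := by
    apply div_le_div_of_nonneg_right _ (Real.sqrt_nonneg 2)
    linarith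
  have hq1 : 1 ≤ q := by
    by_contra hcon
    have : q = 0 := by omega
    rw [this] at hx2
    push_cast at hx2
    linarith
  obtain ⟨b, rfl⟩ : ∃ b, q = b + 1 := ⟨q - 1, by omega⟩
  push_cast at hx1 hx2
  have hb6 : 2 * (b + 1) + 6 ≤ N := by
    have : (2 : ℝ) * (b + 1) + 6 ≤ N := by linarith
    exact_mod_cast this
  have m1 := hN0 N hNN0 b (by linarith)
  have m2 := hN0 N hNN0 (b + 1) (by push_cast; linarith)
  have hlt := Sq_lt N b (by omega) m1.1 m1.2 m2.2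
  rw [← norm_eq N b (by omega), ← norm_eq N (b + 1) (by omega)] at hlt
  have := hmax (((N + 1 : ℕ) : ℤ) + 1 - 2 * ((b + 1 + 1 : ℕ) : ℤ))
  linarith

end Pool.Agent.W816.FC
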