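import Mathlib

/-!
Feynman checkers: the coefficient array `F a b = ∑ k, (-1)^k C(a,k) C(b,k)`, its contiguity
relations and the three-term recurrence along `a + b = const`.
-/

namespace Pool.Agent.W816.FC

/-- `F a b = ∑ k, (-1)^k C(a,k) C(b,k)`, given by its recurrence. -/
def F : ℕ → ℕ → ℤ
  | 0, _ => 1
  | _ + 1, 0 => 1
  | a + 1, b + 1 => F (a + 1) b + F a (b + 1) - 2 * F a b

theorem F_zero_right (a : ℕ) : F a 0 = 1 := by cases a <;> simp [F]

theorem F_zero_left (b : ℕ) : F 0 b = 1 := by simp [F]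

theorem J (a b : ℕ) : F (a + 1) (b + 1) = F (a + 1) b + F a (b + 1) - 2 * F a b := by rw [F]

theorem F_one_right (a : ℕ) : F a 1 = 1 - a := by
  induction a with
  | zero => simp [F_zero_left]
  | succ a ih =>
    have := J a 0
    rw [this, ih, F_zero_right, F_zero_right]
    push_cast
    ring

theorem F_one_left (b : ℕ) : F 1 b = 1 - b := by
  induction b with
  | zero => simp [F_zero_right]
  | succ b ih =>
    have := J 0 b
    simp only [zero_add] at this
    rw [this, ih, F_zero_left, F_zero_left]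
    push_cast
    ring

theorem K (a b : ℕ) :
    ((a : ℤ) + 1) * F (a + 1) b - ((b : ℤ) + 1) * F a (b + 1) = 2 * ((a : ℤ) - b) * F a b := by
  induction a generalizing b with
  | zero =>
    rw [zero_add, F_one_left, F_zero_left, F_zero_left]
    push_cast
    ring
  | succ a iha =>
    induction b with
    | zero =>
      rw [zero_add, F_one_right, F_zero_right, F_zero_right]
      push_cast
      ring
    | succ b ihb =>
      have h1 := iha (b + 1)
      have h2 := iha b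
      have h3 := J (a + 1) b
      have h4 := J a (b + 1)
      have h5 := J a b
      push_cast at *
      linear_combination ihb + h1 - 2 * h2 + ((a : ℤ) + 2) * h3 - ((b : ℤ) + 2) * h4 -
        2 * ((a : ℤ) - b) * h5

theorem M (a b : ℕ) :
    ((a : ℤ) + 1) * F a (b + 1) - ((b : ℤ) + 1) * F (a + 1) b =
      ((a : ℤ) - b) * F (a + 1) (b + 1) := by
  have h1 := J a b
  have h2 := K a b
  linear_combination -((a : ℤ) - b) * h1 - h2

/-- three-term recurrence along `a + b = const` -/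
theorem three_term (a b : ℕ) :
    ((a : ℤ) + 1) * ((b : ℤ) + 2) * ((a : ℤ) - b + 1) * F a (b + 2) +
      ((a : ℤ) + 2) * ((b : ℤ) + 1) * ((a : ℤ) - b - 1) * F (a + 2) b =
      (((a : ℤ) + 1) ^ 2 * ((a : ℤ) - b + 1) + ((b : ℤ) + 1) ^ 2 * ((a : ℤ) - b - 1) -
        2 * ((a : ℤ) - b) * (((a : ℤ) - b) ^ 2 - 1)) * F (a + 1) (b + 1) := by
  have h1 := K a (b + 1)
  have h2 := K (a + 1) b
  have h3 := M a b
  push_cast at *
  linear_combination (-(((a : ℤ) + 1) * ((a : ℤ) - b + 1))) * h1 +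
    ((b : ℤ) + 1) * ((a : ℤ) - b - 1) * h2 -
    2 * ((a : ℤ) - b - 1) * ((a : ℤ) - b + 1) * h3

/-- the amplitude along the antidiagonal, without the alternating sign -/
noncomputable def f (N b : ℕ) : ℝ := (-1) ^ b * (F (N - b) b : ℝ)

theorem f_zero (N : ℕ) : f N 0 = 1 := by simp [f, F_zero_right]

theorem f_one (N : ℕ) (hN : 1 ≤ N) : f N 1 = N - 2 := by
  unfold f
  rw [F_one_right, Nat.cast_sub hN]
  push_cast
  ring

/-- the weight `κ_b` -/
noncomputable def kap (N b : ℕ) : ℝ := ((b : ℝ) + 1) * ((N : ℝ) - b) / ((N : ℝ) - 2 * b - 1)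

/-- the weighted difference `E_b = κ_b (f_{b+1} - f_b)` -/
noncomputable def En (N b : ℕ) : ℝ := kap N b * (f N (b + 1) - f N b)

/-- the coefficient `c_b` -/
noncomputable def co (N b : ℕ) : ℝ :=
  ((N : ℝ) - 2 * b) * (2 * ((N : ℝ) - 2 * b) ^ 2 - 2 - ((N : ℝ) + 1) ^ 2) /
    (((N : ℝ) - 2 * b) ^ 2 - 1)

theorem En_zero (N : ℕ) (hN : 2 ≤ N) : En N 0 = co N 0 * f N 0 := by
  have h2 : (2 : ℝ) ≤ N := by exact_mod_cast hN
  unfold En kap co
  rw [f_zero, zero_add, f_one N (by omega)]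
  have h3 : (N : ℝ) - 1 ≠ 0 := by linarith
  have h4 : (N : ℝ) ^ 2 - 1 ≠ 0 := by nlinarith
  push_cast
  simp only [mul_zero, sub_zero, zero_add, one_mul, mul_one]
  field_simp
  ring

theorem En_succ (N b : ℕ) (h : 2 * b + 4 ≤ N) :
    En N (b + 1) = En N b + co N (b + 1) * f N (b + 1) := by
  obtain ⟨a, rfl⟩ : ∃ a, N = a + b + 2 := ⟨N - b - 2, by omega⟩
  have hab : b + 2 ≤ a := by omega
  have hab' : (b : ℝ) + 2 ≤ a := by exact_mod_cast hab
  have h3 := three_term a b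
  have h3' : ((a : ℝ) + 1) * ((b : ℝ) + 2) * ((a : ℝ) - b + 1) * F a (b + 2) +
      ((a : ℝ) + 2) * ((b : ℝ) + 1) * ((a : ℝ) - b - 1) * F (a + 2) b =
      (((a : ℝ) + 1) ^ 2 * ((a : ℝ) - b + 1) + ((b : ℝ) + 1) ^ 2 * ((a : ℝ) - b - 1) -
        2 * ((a : ℝ) - b) * (((a : ℝ) - b) ^ 2 - 1)) * F (a + 1) (b + 1) := by
    exact_mod_cast h3
  unfold En kap co f
  have e0 : a + b + 2 - b = a + 2 := by omega
  have e1 : a + b + 2 - (b + 1) = a + 1 := by omega
  have e2 : a + b + 2 - (b + 1 + 1) = a := by omega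
  rw [e0, e1, e2]
  push_cast
  have k1 : (a : ℝ) - b - 1 ≠ 0 := by linarith
  have k2 : (a : ℝ) - b + 1 ≠ 0 := by linarith
  have d1 : (a : ℝ) + b + 2 - 2 * (b + 1) - 1 = a - b - 1 := by ring
  have d2 : (a : ℝ) + b + 2 - 2 * b - 1 = a - b + 1 := by ring
  have d3 : ((a : ℝ) + b + 2 - 2 * (b + 1)) ^ 2 - 1 = (a - b - 1) * (a - b + 1) := by ring
  rw [d1, d2, d3]
  field_simp
  have e3 : ((-1 : ℝ)) ^ (b + 1 + 1) = (-1) ^ b := by ring
  have e4 : ((-1 : ℝ)) ^ (b + 1) = -(-1) ^ b := by ring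
  rw [e3, e4]
  linear_combination (-1) ^ b * h3'

end Pool.Agent.W816.FC
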