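import Pool.Agent.W816.FC1

/-!
Feynman checkers: at fixed time the amplitude is increasing up to any constant distance beyond the
turning point.
-/

namespace Pool.Agent.W816.FC

/-- the position `D - s` of the index relative to the turning point -/
noncomputable def X (N b : ℕ) : ℝ := ((N : ℝ) - 2 * b) - ((N : ℝ) + 1) / Real.sqrt 2

/-- the explicit lower bound for `E_b / f_b` -/
noncomputable def yy (C m x : ℝ) : ℝ :=
  if m ≤ x then 3 * m else 2 * m - 2 + x - (2 * C + 1) * max 0 (4 - x)

theorem sq_half (t : ℝ) : 2 * (t / Real.sqrt 2) ^ 2 = t ^ 2 := by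
  rw [div_pow, Real.sq_sqrt (by norm_num)]
  ring

theorem sqrt_bounds : (1.41 : ℝ) < Real.sqrt 2 ∧ Real.sqrt 2 < 1.42 := by
  constructor
  · rw [Real.lt_sqrt (by norm_num)]; norm_num
  · rw [Real.sqrt_lt (by norm_num) (by norm_num)]; norm_num

theorem s_bounds (N : ℝ) (hN : 0 ≤ N) :
    (N + 1) / Real.sqrt 2 ≤ 0.71 * (N + 1) ∧ 0.70 * (N + 1) ≤ (N + 1) / Real.sqrt 2 := by
  obtain ⟨h1, h2⟩ := sqrt_bounds
  constructor
  · rw [div_le_iff₀ (by linarith)]
    nlinarith
  · rw [le_div_iff₀ (by linarith)]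
    nlinarith

theorem co_eq (N b : ℕ) :
    co N b = ((N : ℝ) - 2 * b) *
      (2 * X N b * (((N : ℝ) - 2 * b) + ((N : ℝ) + 1) / Real.sqrt 2) - 2) /
      (((N : ℝ) - 2 * b) ^ 2 - 1) := by
  unfold co X
  have := sq_half ((N : ℝ) + 1)
  congr 2
  linear_combination this

theorem mono_aux (C : ℝ) (hC : 0 ≤ C) (m : ℝ) (hm : (2 * C + 1) * (C + 4) + C + 3 ≤ m)
    (N : ℕ) (hN : 200 * m ^ 2 ≤ N) (b : ℕ) (hb : -C ≤ X N b) :
    0 < f N b ∧ yy C m (X N b) * f N b ≤ En N b := by
  have hm7 : 7 ≤ m := by nlinarith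
  have hCm : C ≤ m := by nlinarith
  have hNm : 200 * m ≤ (N : ℝ) := by nlinarith
  have hN0 : (1400 : ℝ) ≤ N := by nlinarith
  obtain ⟨hs1, hs2⟩ := s_bounds (N : ℝ) (by linarith)
  have hyy_pos : ∀ x : ℝ, -C ≤ x → 0 < yy C m x := by
    intro x hx
    unfold yy
    split_ifs with h
    · linarith
    · rcases max_cases (0 : ℝ) (4 - x) with ⟨h1, _⟩ | ⟨h1, _⟩
      · rw [h1]; nlinarith
      · rw [h1]; nlinarith
  have hyy_le : ∀ x : ℝ, yy C m x ≤ 3 * m := by
    intro x
    unfold yy
    split_ifs with h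
    · exact le_rfl
    · have : 0 ≤ max (0 : ℝ) (4 - x) := le_max_left _ _
      push Not at h
      nlinarith
  -- coefficient bounds
  have hc1 : ∀ b : ℕ, m ≤ X N b → 3 * m ≤ co N b := by
    intro b hx
    rw [co_eq]
    have hx' := hx
    unfold X at hx'
    set s := ((N : ℝ) + 1) / Real.sqrt 2 with hs
    set D := (N : ℝ) - 2 * b with hD
    have hDN : D ≤ N := by
      have : (0 : ℝ) ≤ b := Nat.cast_nonneg b
      rw [hD]; linarith
    have hX : X N b = D - s := rfl
    rw [hX, le_div_iff₀ (by nlinarith)]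
    have h1 : 2 ≤ 2 * s - D := by nlinarith
    have h2 : 0 < D := by linarith
    have h3 : m * D * 2 ≤ m * D * (2 * s - D) := mul_le_mul_of_nonneg_left h1 (by positivity)
    have h4 : 0 ≤ D * (D + s) * (D - s - m) := by
      apply mul_nonneg
      · apply mul_nonneg <;> nlinarith
      · linarith
    nlinarith
  have hc2 : ∀ b : ℕ, 1 ≤ X N b → 0 ≤ co N b := by
    intro b hx
    rw [co_eq]
    have hx' := hx
    unfold X at hx'
    set s := ((N : ℝ) + 1) / Real.sqrt 2 with hs
    set D := (N : ℝ) - 2 * b with hD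
    have hX : X N b = D - s := rfl
    rw [hX] at *
    apply div_nonneg
    · apply mul_nonneg
      · linarith
      · nlinarith
    · nlinarith
  have hc3 : ∀ b : ℕ, -C ≤ X N b → -(4 * C + 1) ≤ co N b := by
    intro b hx
    rw [co_eq]
    have hx' := hx
    unfold X at hx'
    set s := ((N : ℝ) + 1) / Real.sqrt 2 with hs
    set D := (N : ℝ) - 2 * b with hD
    have hX : X N b = D - s := rfl
    rw [hX] at *
    have hDl : 2 * (C + 1) ^ 2 + 1 ≤ D := by nlinarith
    have hD1 : 1 < D := by nlinarith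
    rw [le_div_iff₀ (by nlinarith)]
    have h1 : -(C * (2 * D + C)) ≤ (D - s) * (D + s) := by
      rcases le_or_gt s D with h | h
      · have : 0 ≤ (D - s) * (D + s) := mul_nonneg (by linarith) (by linarith)
        have : 0 ≤ C * (2 * D + C) := by positivity
        linarith
      · have h2 : (s - D) * (D + s) ≤ C * (2 * D + C) := by
          apply mul_le_mul <;> linarith
        linarith
    have h2 : D * (2 * (-(C * (2 * D + C))) - 2) ≤ D * (2 * (D - s) * (D + s) - 2) := by
      apply mul_le_mul_of_nonneg_left _ (by linarith)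
      nlinarith
    have h3 : (2 * (C + 1) ^ 2 + 1) * D ≤ D * D := mul_le_mul_of_nonneg_right hDl (by linarith)
    nlinarith
  have hkap : ∀ b : ℕ, -C ≤ X N b → X N b ≤ m + 2 → 9 * m ^ 2 ≤ kap N b := by
    intro b hx1 hx2
    unfold X at hx1 hx2
    unfold kap
    set s := ((N : ℝ) + 1) / Real.sqrt 2 with hs
    have hb0 : (0 : ℝ) ≤ b := Nat.cast_nonneg b
    have h0 : 0 < (N : ℝ) - 2 * b - 1 := by nlinarith
    rw [le_div_iff₀ h0]
    have h1 : 36 * m ^ 2 ≤ 2 * (b : ℝ) := by nlinarith
    have h2 : (N : ℝ) / 2 ≤ (N : ℝ) - b := by nlinarith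
    have h3 : (N : ℝ) - 2 * b - 1 ≤ N := by linarith
    have h4 : 9 * m ^ 2 * ((N : ℝ) - 2 * b - 1) ≤ 9 * m ^ 2 * N := by
      apply mul_le_mul_of_nonneg_left h3 (by positivity)
    have h5 : (18 * m ^ 2 + 1) * (N / 2) ≤ ((b : ℝ) + 1) * ((N : ℝ) - b) := by
      apply mul_le_mul
      · linarith
      · exact h2
      · positivity
      · positivity
    nlinarith
  induction b with
  | zero =>
    have h1 : En N 0 = co N 0 * f N 0 := En_zero N (by
      have : (2 : ℝ) ≤ N := by linarith
      exact_mod_cast this)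
    rw [h1, f_zero]
    refine ⟨one_pos, ?_⟩
    simp only [mul_one]
    refine (hyy_le _).trans (hc1 0 ?_)
    unfold X
    push_cast
    nlinarith
  | succ b ih =>
    have hX : X N b = X N (b + 1) + 2 := by unfold X; push_cast; ring
    have hb' : -C ≤ X N b := by linarith
    obtain ⟨hf, hE⟩ := ih hb'
    have hy0 := hyy_pos _ hb'
    have hE0 : 0 < En N b := lt_of_lt_of_le (mul_pos hy0 hf) hE
    have hDb : 2 * b + 4 ≤ N := by
      unfold X at hb
      push_cast at hb
      have : (2 : ℝ) * b + 4 ≤ N := by nlinarith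
      exact_mod_cast this
    have hDb' : (2 : ℝ) * b + 4 ≤ N := by exact_mod_cast hDb
    have hb0 : (0 : ℝ) ≤ b := Nat.cast_nonneg b
    have hkpos : 0 < kap N b := by
      unfold kap
      apply div_pos
      · apply mul_pos <;> linarith
      · linarith
    have hEd : En N b = kap N b * (f N (b + 1) - f N b) := rfl
    have hf1 : f N b < f N (b + 1) := by
      by_contra hcon
      push Not at hcon
      have : kap N b * (f N (b + 1) - f N b) ≤ 0 :=
        mul_nonpos_of_nonneg_of_nonpos hkpos.le (by linarith)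
      linarith
    have hf2 : 0 < f N (b + 1) := hf.trans hf1
    refine ⟨hf2, ?_⟩
    rw [En_succ N b hDb]
    by_cases hx : m ≤ X N (b + 1)
    · have h1 := hc1 _ hx
      have h2 := hyy_le (X N (b + 1))
      have h3 : yy C m (X N (b + 1)) * f N (b + 1) ≤ co N (b + 1) * f N (b + 1) :=
        mul_le_mul_of_nonneg_right (h2.trans h1) hf2.le
      linarith
    · push Not at hx
      have hk := hkap b hb' (by linarith)
      set y := yy C m (X N b) with hy
      set k := kap N b with hkdef
      have hy3 : y ≤ 3 * m := hyy_le _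
      have hyk : y ^ 2 ≤ k := by nlinarith
      have hyk1 : y ≤ k := by nlinarith
      -- `(y - 1) f_{b+1} ≤ E_b`
      have key : (y - 1) * f N (b + 1) ≤ En N b := by
        have h1 : k * f N (b + 1) = k * f N b + En N b := by rw [hEd]; ring
        have h2 : y * (k * f N (b + 1)) ≤ (k + y) * En N b := by
          rw [h1]
          have : k * (y * f N b) ≤ k * En N b := mul_le_mul_of_nonneg_left hE hkpos.le
          nlinarith
        -- multiply by `(k - y)`
        have h3 : (k - y) * (y * (k * f N (b + 1))) ≤ (k - y) * ((k + y) * En N b) :=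
          mul_le_mul_of_nonneg_left h2 (by linarith)
        have h4 : (k - y) * ((k + y) * En N b) ≤ k * (k * En N b) := by nlinarith [sq_nonneg y]
        have h5 : k * (k * ((y - 1) * f N (b + 1))) ≤ (k - y) * (y * (k * f N (b + 1))) := by
          have : 0 ≤ (k - y ^ 2) * (k * f N (b + 1)) := by
            apply mul_nonneg
            · linarith
            · positivity
          nlinarith
        have h6 : k * (k * ((y - 1) * f N (b + 1))) ≤ k * (k * En N b) := by linarith
        exact le_of_mul_le_mul_left (le_of_mul_le_mul_left h6 hkpos) hkpos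
      have hyl : 2 * m - 2 + X N b - (2 * C + 1) * max 0 (4 - X N b) ≤ y := by
        rw [hy]
        unfold yy
        split_ifs with h
        · have : 0 ≤ (2 * C + 1) * max (0 : ℝ) (4 - X N b) := by positivity
          linarith
        · exact le_rfl
      have hyr : yy C m (X N (b + 1)) =
          2 * m - 2 + X N (b + 1) - (2 * C + 1) * max 0 (4 - X N (b + 1)) := by
        unfold yy
        rw [if_neg (not_le.2 hx)]
      have hfin : yy C m (X N (b + 1)) ≤ y - 1 + co N (b + 1) := by
        rw [hyr]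
        by_cases h1 : 1 ≤ X N (b + 1)
        · have h2 := hc2 _ h1
          have h3 : max (0 : ℝ) (4 - X N b) ≤ max 0 (4 - X N (b + 1)) :=
            max_le_max le_rfl (by linarith)
          nlinarith
        · push Not at h1
          have h2 := hc3 _ hb
          have h3 : max (0 : ℝ) (4 - X N b) = 4 - X N b := max_eq_right (by linarith)
          have h4 : max (0 : ℝ) (4 - X N (b + 1)) = 4 - X N (b + 1) := max_eq_right (by linarith)
          rw [h3] at hyl
          rw [h4]
          nlinarith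
      have := mul_le_mul_of_nonneg_right hfin hf2.le
      nlinarith

/-- The amplitude is positive and increasing up to any constant distance beyond the turning
point. -/
theorem mono (C : ℝ) (hC : 0 ≤ C) : ∃ N0 : ℕ, ∀ N : ℕ, N0 ≤ N → ∀ b : ℕ,
    ((N : ℝ) + 1) / Real.sqrt 2 - C ≤ (N : ℝ) - 2 * b → 0 < f N b ∧ f N b < f N (b + 1) := by
  set m : ℝ := (2 * C + 1) * (C + 4) + C + 3 with hm
  have hm7 : 7 ≤ m := by nlinarith
  obtain ⟨N0, hN0⟩ := exists_nat_ge (200 * m ^ 2)
  refine ⟨N0, fun N hN b hb => ?_⟩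
  have hN' : 200 * m ^ 2 ≤ (N : ℝ) := hN0.trans (by exact_mod_cast hN)
  have hX : -C ≤ X N b := by unfold X; linarith
  obtain ⟨h1, h2⟩ := mono_aux C hC m le_rfl N hN' b hX
  refine ⟨h1, ?_⟩
  have hNm : 200 * m ≤ (N : ℝ) := by nlinarith
  obtain ⟨hs1, hs2⟩ := s_bounds (N : ℝ) (by linarith)
  have hCm : C ≤ m := by nlinarith
  have hy : 0 < yy C m (X N b) := by
    unfold yy
    split_ifs with h
    · linarith
    · rcases max_cases (0 : ℝ) (4 - X N b) with ⟨h1, _⟩ | ⟨h1, _⟩
      · rw [h1]; nlinarith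
      · rw [h1]; nlinarith
  have hE0 : 0 < En N b := lt_of_lt_of_le (mul_pos hy h1) h2
  by_contra hcon
  push Not at hcon
  have hkpos : 0 < kap N b := by
    unfold kap
    have hb0 : (0 : ℝ) ≤ b := Nat.cast_nonneg b
    apply div_pos
    · apply mul_pos
      · linarith
      · nlinarith
    · nlinarith
  have : kap N b * (f N (b + 1) - f N b) ≤ 0 :=
    mul_nonpos_of_nonneg_of_nonpos hkpos.le (by linarith)
  unfold En at hE0
  linarith

end Pool.Agent.W816.FC
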